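import Mathlib

/-!
# A compact convex set of scatteredly continuous functions of large weight
-/

namespace Pool.Agent.Results.MP_3f847c_gt.WeightExceeds

open Set Cardinal

/-- `f : X → ℝ` is scatteredly continuous if each of its restrictions to a nonempty
subset has a point of continuity. -/
def IsScatteredlyContinuous {X : Type*} [TopologicalSpace X] (f : X → ℝ) : Prop :=
  ∀ A : Set X, A.Nonempty → ∃ a : A, ContinuousAt (fun z : A => f z) a

/-- A network of a topological space. -/
def IsNetwork {Z : Type*} [TopologicalSpace Z] (N : Set (Set Z)) : Prop :=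
  ∀ z : Z, ∀ U : Set Z, IsOpen U → z ∈ U → ∃ A ∈ N, z ∈ A ∧ A ⊆ U

/-- The network weight. -/
noncomputable def nw (Z : Type*) [TopologicalSpace Z] : Cardinal :=
  max ℵ₀ (sInf {c | ∃ N : Set (Set Z), IsNetwork N ∧ #N = c})

/-- The weight. -/
noncomputable def weight (Z : Type*) [TopologicalSpace Z] : Cardinal :=
  max ℵ₀ (sInf {c | ∃ B : Set (Set Z), TopologicalSpace.IsTopologicalBasis B ∧ #B = c})

/-- The underlying set of the example: all functions `ℝ → {0,1}`. -/
def Pt : Type := ℝ → Bool

/-- The interleaving of two sequences. -/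
def mix {α : Type*} (e e' : ℕ → α) : ℕ → α := fun n => if n % 2 = 0 then e (n / 2) else e' (n / 2)

theorem mix_left {α : Type*} (e e' : ℕ → α) (n : ℕ) : mix e e' (2 * n) = e n := by
  simp [mix]

theorem mix_right {α : Type*} (e e' : ℕ → α) (n : ℕ) : mix e e' (2 * n + 1) = e' n := by
  have h1 : (2 * n + 1) % 2 = 1 := by omega
  have h2 : (2 * n + 1) / 2 = n := by omega
  simp [mix, h1, h2]

/-- The topology whose basic open sets are given by prescribing countably many values. -/
instance : TopologicalSpace Pt where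
  IsOpen U := ∀ x ∈ U, ∃ e : ℕ → ℝ, ∀ y : Pt, (∀ n, y (e n) = x (e n)) → y ∈ U
  isOpen_univ := fun _ _ => ⟨fun _ => 0, fun _ _ => mem_univ _⟩
  isOpen_inter := by
    rintro s t hs ht x ⟨hxs, hxt⟩
    obtain ⟨e, he⟩ := hs x hxs
    obtain ⟨e', he'⟩ := ht x hxt
    refine ⟨mix e e', fun y hy => ⟨he y fun n => ?_, he' y fun n => ?_⟩⟩
    · have := hy (2 * n)
      rwa [mix_left] at this
    · have := hy (2 * n + 1)
      rwa [mix_right] at this
  isOpen_sUnion := by
    rintro T hT x ⟨s, hs, hx⟩
    obtain ⟨e, he⟩ := hT s hs x hx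
    exact ⟨e, fun y hy => ⟨s, hs, he y hy⟩⟩

theorem isOpen_def {U : Set Pt} : IsOpen U ↔
    ∀ x ∈ U, ∃ e : ℕ → ℝ, ∀ y : Pt, (∀ n, y (e n) = x (e n)) → y ∈ U := Iff.rfl

/-- A basic open set. -/
def box (e : ℕ → ℝ) (v : ℕ → Bool) : Set Pt := {y | ∀ n, y (e n) = v n}

theorem isOpen_box (e : ℕ → ℝ) (v : ℕ → Bool) : IsOpen (box e v) := by
  rw [isOpen_def]
  intro x hx
  exact ⟨e, fun y hy n => by rw [hy n, hx n]⟩

theorem isClosed_box (e : ℕ → ℝ) (v : ℕ → Bool) : IsClosed (box e v) := by
  rw [← isOpen_compl_iff, isOpen_def]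
  intro x hx
  refine ⟨e, fun y hy hy' => hx fun n => ?_⟩
  rw [← hy n, hy' n]

instance : T0Space Pt := by
  constructor
  intro x y h
  funext r
  have h1 : y ∈ box (fun _ => r) (fun _ => y r) := fun _ => rfl
  have h2 : x ∈ box (fun _ => r) (fun _ => y r) :=
    (h.mem_open_iff (isOpen_box _ _)).2 h1
  exact h2 0

open Classical in
instance : CompletelyRegularSpace Pt := by
  constructor
  intro x K hK hx
  obtain ⟨e, he⟩ := isOpen_def.1 hK.isOpen_compl x hx
  have hclopen : IsClopen (box e fun n => x (e n)) := ⟨isClosed_box _ _, isOpen_box _ _⟩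
  refine ⟨fun y => if y ∈ box e (fun n => x (e n)) then 0 else 1, ?_, ?_, ?_⟩
  · refine continuous_const.if (fun a ha => ?_) continuous_const
    have : frontier {a | a ∈ box e fun n => x (e n)} = ∅ := hclopen.frontier_eq
    rw [this] at ha
    exact absurd ha (notMem_empty _)
  · have : x ∈ box e fun n => x (e n) := fun _ => rfl
    simp [this]
  · intro y hy
    have : y ∉ box e fun n => x (e n) := fun h => he y h hy
    simp [this]

instance : T35Space Pt where

/-- Countable sets are closed and discrete. -/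
theorem exists_nhd (S : Set Pt) (hS : S.Countable) (x : Pt) :
    ∃ V : Set Pt, IsOpen V ∧ x ∈ V ∧ V ∩ S ⊆ {x} := by
  rcases S.eq_empty_or_nonempty with rfl | hne
  · exact ⟨univ, isOpen_univ, mem_univ _, by simp⟩
  · obtain ⟨s, rfl⟩ := hS.exists_eq_range hne
    have : ∀ n, ∃ r : ℝ, s n ≠ x → s n r ≠ x r := by
      intro n
      by_cases h : s n = x
      · exact ⟨0, fun h' => absurd h h'⟩
      · obtain ⟨r, hr⟩ := Function.ne_iff.1 h
        exact ⟨r, fun _ => hr⟩
    choose e he using this
    refine ⟨box e fun n => x (e n), isOpen_box _ _, fun _ => rfl, ?_⟩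
    rintro _ ⟨h, n, rfl⟩
    by_contra hne
    exact he n hne (h n)

theorem scattered_of_countable (f : Pt → ℝ) (hf : (Function.support f).Countable) :
    IsScatteredlyContinuous f := by
  intro A hA
  obtain ⟨x, hxA, hx⟩ : ∃ x ∈ A, x ∉ Function.support f ∨ A ⊆ Function.support f := by
    by_cases h : A ⊆ Function.support f
    · obtain ⟨x, hx⟩ := hA
      exact ⟨x, hx, Or.inr h⟩
    · obtain ⟨x, hx, hx'⟩ := not_subset.1 h
      exact ⟨x, hx, Or.inl hx'⟩
  refine ⟨⟨x, hxA⟩, ?_⟩
  obtain ⟨V, hV, hxV, hVS⟩ := exists_nhd _ hf x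
  have hev : (fun z : A => f z) =ᶠ[nhds (⟨x, hxA⟩ : A)] fun _ => f x := by
    have hmem : (Subtype.val ⁻¹' V : Set A) ∈ nhds (⟨x, hxA⟩ : A) :=
      (hV.preimage continuous_subtype_val).mem_nhds hxV
    filter_upwards [hmem] with z hz
    rcases hx with hx | hx
    · by_cases hzs : (z : Pt) ∈ Function.support f
      · have : (z : Pt) = x := hVS ⟨hz, hzs⟩
        rw [this]
      · rw [Function.notMem_support.1 hzs, Function.notMem_support.1 hx]
    · have : (z : Pt) = x := hVS ⟨hz, hx z.2⟩
      rw [this]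
  exact (continuousAt_const.congr hev.symm)

/-- The compact convex set. -/
def KK : Set (Pt → ℝ) := {f | (∀ x, 0 ≤ f x) ∧ ∀ s : Finset Pt, ∑ x ∈ s, f x ≤ 1}

theorem KK_compact : IsCompact KK := by
  have h1 : IsCompact (univ.pi fun _ : Pt => Icc (0 : ℝ) 1) :=
    isCompact_univ_pi fun _ => isCompact_Icc
  refine h1.of_isClosed_subset ?_ ?_
  · have : KK = (⋂ x, {f : Pt → ℝ | 0 ≤ f x}) ∩
        ⋂ s : Finset Pt, {f : Pt → ℝ | ∑ x ∈ s, f x ≤ 1} := by
      ext f
      simp [KK]
    rw [this]
    refine (isClosed_iInter fun x => ?_).inter (isClosed_iInter fun s => ?_)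
    · exact isClosed_le continuous_const (continuous_apply x)
    · exact isClosed_le (continuous_finsetSum _ fun x _ => continuous_apply x) continuous_const
  · intro f hf x _
    exact ⟨hf.1 x, by simpa using hf.2 {x}⟩

theorem KK_convex : Convex ℝ KK := by
  intro f hf g hg a b ha hb hab
  refine ⟨fun x => ?_, fun s => ?_⟩
  · have h1 := hf.1 x
    have h2 := hg.1 x
    simp only [Pi.add_apply, Pi.smul_apply, smul_eq_mul]
    positivity
  · simp only [Pi.add_apply, Pi.smul_apply, smul_eq_mul]
    rw [Finset.sum_add_distrib, ← Finset.mul_sum, ← Finset.mul_sum]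
    have h1 := mul_le_mul_of_nonneg_left (hf.2 s) ha
    have h2 := mul_le_mul_of_nonneg_left (hg.2 s) hb
    linarith

theorem KK_scattered : ∀ f ∈ KK, IsScatteredlyContinuous f := by
  intro f hf
  apply scattered_of_countable
  have : Summable f := summable_of_sum_le hf.1 hf.2
  exact this.countable_support

theorem mk_Pt : #Pt = 2 ^ 𝔠 := by
  have : #Pt = #(ℝ → Bool) := rfl
  rw [this]
  simp [Cardinal.mk_real]

theorem nw_le : nw Pt ≤ 𝔠 := by
  refine max_le aleph0_le_continuum ?_
  have hnet : IsNetwork (range fun p : (ℕ → ℝ) × (ℕ → Bool) => box p.1 p.2) := by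
    intro x U hU hx
    obtain ⟨e, he⟩ := isOpen_def.1 hU x hx
    exact ⟨box e fun n => x (e n), ⟨⟨e, fun n => x (e n)⟩, rfl⟩, fun _ => rfl, fun y hy => he y hy⟩
  have hmem : #(range fun p : (ℕ → ℝ) × (ℕ → Bool) => box p.1 p.2) ∈
      {c | ∃ N : Set (Set Pt), IsNetwork N ∧ #N = c} := ⟨_, hnet, rfl⟩
  refine (csInf_le' hmem).trans ?_
  · refine mk_range_le.trans ?_
    rw [mk_prod, lift_id, lift_id, ← power_def, ← power_def, mk_real, mk_nat, mk_bool,
      continuum_power_aleph0, two_power_aleph0, continuum_mul_self]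

open Classical in
theorem le_weight : 2 ^ 𝔠 ≤ weight KK := by
  refine le_trans ?_ (le_max_right _ _)
  refine le_csInf ⟨_, _, TopologicalSpace.isTopologicalBasis_opens, rfl⟩ ?_
  rintro c ⟨B, hB, rfl⟩
  rw [← mk_Pt]
  -- the indicator of a point
  have hmem : ∀ x : Pt, (Pi.single x 1 : Pt → ℝ) ∈ KK := by
    intro x
    refine ⟨fun y => ?_, fun s => ?_⟩
    · by_cases h : y = x
      · subst h; simp
      · simp [Pi.single_eq_of_ne h]
    · by_cases hx : x ∈ s
      · rw [Finset.sum_eq_single_of_mem x hx]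
        · simp
        · intro y _ hy
          exact Pi.single_eq_of_ne hy _
      · rw [Finset.sum_eq_zero]
        · exact zero_le_one
        · intro y hy
          have hyx : y ≠ x := fun h => hx (h ▸ hy)
          exact Pi.single_eq_of_ne hyx _
  have hch : ∀ x : Pt, ∃ b ∈ B, (⟨Pi.single x 1, hmem x⟩ : KK) ∈ b ∧
      b ⊆ {f : KK | 1 / 2 < f.1 x} := by
    intro x
    have hopen : IsOpen {f : KK | 1 / 2 < f.1 x} :=
      isOpen_lt continuous_const ((continuous_apply x).comp continuous_subtype_val)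
    refine hB.exists_subset_of_mem_open (?_ : (⟨Pi.single x 1, hmem x⟩ : KK) ∈ _) hopen
    simp only [mem_ofPred_eq, Pi.single_eq_same]
    norm_num
  choose b hb hbm hbs using hch
  refine mk_le_of_injective (f := fun x => (⟨b x, hb x⟩ : B)) ?_
  intro x y hxy
  have hxy' : b x = b y := congrArg Subtype.val hxy
  by_contra hne
  have h1 : (⟨Pi.single x 1, hmem x⟩ : KK) ∈ b y := hxy' ▸ hbm x
  have h2 := hbs y h1
  simp only [mem_ofPred_eq] at h2
  rw [Pi.single_eq_of_ne (fun h => hne h.symm)] at h2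
  norm_num at h2

/-- There are a Tychonoff space `X` and a compact convex set `K` of scatteredly
continuous functions on `X` (with the topology of pointwise convergence) whose weight
exceeds the network weight of `X`. -/
theorem result : ∃ (X : Type) (_ : TopologicalSpace X) (K : Set (X → ℝ)),
    T35Space X ∧ IsCompact K ∧ Convex ℝ K ∧ (∀ f ∈ K, IsScatteredlyContinuous f) ∧
      nw X < weight K :=
  ⟨Pt, inferInstance, KK, inferInstance, KK_compact, KK_convex, KK_scattered,
    nw_le.trans_lt ((cantor 𝔠).trans_le le_weight)⟩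

end Pool.Agent.Results.MP_3f847c_gt.WeightExceeds
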